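import Pool.Agent.Zk97.CB.XDefs

set_option autoImplicit false

/-!
# The value groups of discrete places, and the rank of the cokernel of the units
-/

namespace Pool.Agent.Zk49.CB

open Pool.Agent.Zk97.CB

section

variable {L : Type} [Field L] (O : ValuationSubring L)

/-- elements of the ring -/
theorem exists_pow [IsDiscreteValuationRing O] {ϖ : O} (hϖ : Irreducible ϖ) (x : L) (hx : x ≠ 0)
    (hxO : x ∈ O) : ∃ n : ℕ, O.valuation x = O.valuation (ϖ : L) ^ n := by
  have h0 : (⟨x, hxO⟩ : O) ≠ 0 := fun h => hx (congrArg Subtype.val h)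
  obtain ⟨n, u, hu⟩ := IsDiscreteValuationRing.associated_pow_irreducible h0 hϖ
  refine ⟨n, ?_⟩
  have h1 : x * ((u : O) : L) = (ϖ : L) ^ n := by
    have := congrArg Subtype.val hu
    simpa using this
  have h2 := congrArg O.valuation h1
  rw [map_mul, map_pow, O.valuation_unit u, mul_one] at h2
  exact h2

/-- the value group of a discrete place -/
theorem vg_equiv [IsDiscreteValuationRing O] : Nonempty (ℤ ≃+ Additive (O.ValueGroup)ˣ) := by
  obtain ⟨ϖ, hϖ⟩ := IsDiscreteValuationRing.exists_irreducible O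
  have hϖ0 : (ϖ : L) ≠ 0 := fun h => hϖ.ne_zero (Subtype.ext h)
  have hv0 : O.valuation (ϖ : L) ≠ 0 := by
    rw [Valuation.ne_zero_iff]; exact hϖ0
  set u : (O.ValueGroup)ˣ := Units.mk0 _ hv0 with hu
  have hlt : u < 1 := by
    rw [← Units.val_lt_val, hu, Units.val_mk0, Units.val_one]
    refine lt_of_le_of_ne ((O.valuation_le_one_iff _).2 ϖ.2) ?_
    intro h1
    apply hϖ.not_isUnit
    exact (O.valuation_eq_one_iff ϖ).2 h1
  let φ : ℤ →+ Additive (O.ValueGroup)ˣ := zmultiplesHom _ (Additive.ofMul u)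
  have hφ : ∀ n : ℤ, φ n = Additive.ofMul (u ^ n) := by
    intro n
    rfl
  refine ⟨AddEquiv.ofBijective φ ⟨?_, ?_⟩⟩
  · rw [injective_iff_map_eq_zero]
    intro n hn
    rw [hφ] at hn
    have h1 : u ^ n = 1 := hn
    have h2 : O.valuation (ϖ : L) ^ n = O.valuation (ϖ : L) ^ (0 : ℤ) := by
      have h3 := congrArg Units.val h1
      rw [Units.val_zpow_eq_zpow_val, hu, Units.val_mk0, Units.val_one] at h3
      rw [h3, zpow_zero]
    refine zpow_right_injective₀ (zero_lt_iff.2 hv0) ?_ h2
    intro h3
    apply hlt.ne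
    apply Units.ext
    rw [hu, Units.val_mk0, Units.val_one, h3]
  · intro γ
    obtain ⟨x, hx⟩ := O.valuation_surjective ((Additive.toMul γ : (O.ValueGroup)ˣ) : O.ValueGroup)
    have hx0 : x ≠ 0 := by
      rintro rfl
      rw [map_zero] at hx
      exact Units.ne_zero _ hx.symm
    rcases O.mem_or_inv_mem x with h | h
    · obtain ⟨n, hn⟩ := exists_pow O hϖ x hx0 h
      refine ⟨n, ?_⟩
      rw [hφ]
      apply Additive.toMul.injective
      apply Units.ext
      rw [← hx, hn]
      simp [hu]
    · obtain ⟨n, hn⟩ := exists_pow O hϖ x⁻¹ (inv_ne_zero hx0) h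
      refine ⟨-n, ?_⟩
      rw [hφ]
      apply Additive.toMul.injective
      apply Units.ext
      rw [← hx, ← inv_inv x, map_inv₀, hn]
      simp [hu]

end

section

variable {K L T : Type} [Field K] [Field L] [Algebra K L] [CommRing T] [IsDomain T] [Algebra T L]

/-- the orders of the units of `T` at the places in `Z` -/
noncomputable def ordZ (Z : Set (Place K L)) :
    Additive Tˣ →ₗ[ℤ] ((O : Z) → Additive (O.1.1.ValueGroup)ˣ) :=
  (AddMonoidHom.pi fun O : Z => MonoidHom.toAdditive
    ((Units.map (O.1.1.valuation.toMonoidWithZeroHom : L →* O.1.1.ValueGroup)).comp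
      (Units.map (algebraMap T L : T →* L)))).toIntLinearMap

/-- X2: the rank of the cokernel of the units of `T` in the product of the value groups of the
places in the finite set `Z`. -/
theorem x2 (κ : K →+* T) (hκ : ∀ c, algebraMap T L (κ c) = algebraMap K L c)
    (hdvr : ∀ O : Place K L, IsDiscreteValuationRing O.1) (Z : Set (Place K L)) (hZ : Z.Finite)
    (hker : ∀ t : Tˣ, (∀ O ∈ Z, O.1.valuation (algebraMap T L t) = 1) →
      ∃ c : K, κ c = t) :
    Module.rank ℤ (((O : Z) → Additive (O.1.1.ValueGroup)ˣ) ⧸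
      LinearMap.range (ordZ (T := T) Z)) + uRank κ = (Z.ncard : Cardinal) := by
  classical
  have := hZ.fintype
  have hP : Module.rank ℤ ((O : Z) → Additive (O.1.1.ValueGroup)ˣ) = (Z.ncard : Cardinal) := by
    have h1 : ∀ O : Z, Nonempty (ℤ ≃ₗ[ℤ] Additive (O.1.1.ValueGroup)ˣ) := by
      intro O
      have := hdvr O.1
      obtain ⟨e⟩ := vg_equiv O.1.1
      exact ⟨e.toIntLinearEquiv⟩
    have h2 := (LinearEquiv.piCongrRight fun O : Z => (h1 O).some).rank_eq
    rw [← h2, rank_fun', Set.ncard_eq_toFinset_card' Z, Set.toFinset_card]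
  have hkr : LinearMap.ker (ordZ (T := T) Z) =
      LinearMap.range (MonoidHom.toAdditive (Units.map (κ : K →* T))).toIntLinearMap := by
    apply Submodule.ext
    intro t
    rw [LinearMap.mem_ker, LinearMap.mem_range]
    constructor
    · intro ht
      have h1 : ∀ O ∈ Z, O.1.valuation (algebraMap T L (Additive.toMul t : Tˣ)) = 1 := by
        intro O hO
        have h2 := congrFun ht ⟨O, hO⟩
        have h3 := congrArg (fun w : Additive (O.1.ValueGroup)ˣ =>
          ((Additive.toMul w : (O.1.ValueGroup)ˣ) : O.1.ValueGroup)) h2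
        exact h3
      obtain ⟨c, hc⟩ := hker _ h1
      have hc0 : c ≠ 0 := by
        rintro rfl
        rw [map_zero] at hc
        exact (Additive.toMul t : Tˣ).ne_zero hc.symm
      refine ⟨Additive.ofMul (Units.mk0 c hc0), ?_⟩
      apply Additive.toMul.injective
      apply Units.ext
      exact hc
    · rintro ⟨c, rfl⟩
      funext O
      apply Additive.toMul.injective
      apply Units.ext
      change O.1.1.valuation (algebraMap T L (κ (Additive.toMul c : Kˣ))) = 1
      rw [hκ]
      have h1 := O.1.2.1 ((Additive.toMul c : Kˣ) : K)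
      have h2 := O.1.2.1 (((Additive.toMul c)⁻¹ : Kˣ) : K)
      have h3 := (O.1.1.valuation_le_one_iff _).2 h1
      have h4 := (O.1.1.valuation_le_one_iff _).2 h2
      rw [Units.val_inv_eq_inv_val, map_inv₀, map_inv₀] at h4
      apply le_antisymm h3
      have h5 : O.1.1.valuation (algebraMap K L ((Additive.toMul c : Kˣ) : K)) ≠ 0 := by
        rw [Valuation.ne_zero_iff]
        exact (map_ne_zero _).2 (Units.ne_zero _)
      rwa [inv_le_one₀ (zero_lt_iff.2 h5)] at h4
  have h5 : uRank κ = Module.rank ℤ (LinearMap.range (ordZ (T := T) Z)) := by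
    unfold uRank
    rw [← hkr]
    exact (LinearMap.quotKerEquivRange (ordZ (T := T) Z)).rank_eq
  rw [h5, rank_quotient_add_rank_of_isDomain, hP]

end

end Pool.Agent.Zk49.CB
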